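import Pool.Agent.W528.HA.Stm

/-!
# HA-TX: the Teichmueller character of order `N`
-/

set_option autoImplicit false

namespace Pool.Agent.W991.HA.TX

open Finset Polynomial
open Pool.Agent.W528.HA

section kv

variable {L R : Type} [Field L] [CommRing R] {N : ℕ} {z : L} {μ : R}

theorem kv_pow (hz : IsPrimitiveRoot z N) (hN : 0 < N) (hμ : μ ^ N = 1) (k : ℕ) :
    kv N z μ (z ^ k) = μ ^ k := by
  classical
  have h1 : z ^ k = z ^ (k % N) := by
    conv_lhs => rw [← Nat.mod_add_div k N, pow_add, pow_mul, hz.pow_eq_one, one_pow, mul_one]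
  have h2 : μ ^ k = μ ^ (k % N) := by
    conv_lhs => rw [← Nat.mod_add_div k N, pow_add, pow_mul, hμ, one_pow, mul_one]
  rw [h1, h2]
  have hk : k % N < N := Nat.mod_lt _ hN
  unfold kv
  rw [Finset.sum_eq_single (k % N)]
  · rw [if_pos rfl]
  · intro j hj hne
    rw [if_neg]
    intro h
    exact hne (hz.pow_inj (Finset.mem_range.1 hj) hk h.symm)
  · intro h
    exact absurd (Finset.mem_range.2 hk) h

theorem kv_zero (hz : IsPrimitiveRoot z N) (hN : 0 < N) : kv N z μ (0 : L) = 0 := by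
  classical
  unfold kv
  refine Finset.sum_eq_zero fun k _ => ?_
  rw [if_neg]
  intro h
  exact pow_ne_zero k (hz.ne_zero hN.ne') h.symm

end kv

theorem exists_prim (c N : ℕ) [Fact c.Prime] (hN : N ∣ c - 1) : ∃ z0 : ZMod c, IsPrimitiveRoot z0 N := by
  have hc : 0 < c - 1 := by
    have := (Fact.out : c.Prime).two_le
    omega
  obtain ⟨g, hg⟩ := IsCyclic.exists_generator (α := (ZMod c)ˣ)
  have h1 : orderOf g = c - 1 := by
    rw [orderOf_eq_card_of_forall_mem_zpowers hg, Nat.card_eq_fintype_card, ZMod.card_units]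
  have h2 : IsPrimitiveRoot g (c - 1) := h1 ▸ IsPrimitiveRoot.orderOf g
  obtain ⟨m, hm⟩ := hN
  have h3 : IsPrimitiveRoot (g ^ m) N := h2.pow hc (by rw [hm, mul_comm])
  exact ⟨((g ^ m : (ZMod c)ˣ) : ZMod c), IsPrimitiveRoot.coe_units_iff.2 h3⟩

theorem toZMod_eq_zero_iff {c : ℕ} [Fact c.Prime] (x : ℤ_[c]) : PadicInt.toZMod x = 0 ↔ ‖x‖ < 1 := by
  rw [← RingHom.mem_ker, PadicInt.ker_toZMod, IsLocalRing.mem_maximalIdeal, PadicInt.mem_nonunits]

theorem hensel_root (c N : ℕ) [Fact c.Prime] (hN : N ∣ c - 1) (hN0 : 0 < N) (z1 : ZMod c) (hz : z1 ^ N = 1) :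
    ∃ w : ℤ_[c], w ^ N = 1 ∧ PadicInt.toZMod w = z1 := by
  have hc := (Fact.out : c.Prime).two_le
  have hz0 : z1 ≠ 0 := by
    rintro rfl
    rw [zero_pow hN0.ne'] at hz
    exact zero_ne_one hz
  set a : ℤ_[c] := ((z1.val : ℕ) : ℤ_[c]) with ha
  have haz : PadicInt.toZMod a = z1 := by
    rw [ha, map_natCast, ZMod.natCast_zmod_val]
  set F : ℤ_[c][X] := X ^ N - 1 with hF
  have e1 : F.aeval a = a ^ N - 1 := by simp [hF]
  have e2 : F.derivative.aeval a = (N : ℤ_[c]) * a ^ (N - 1) := by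
    simp [hF, Polynomial.derivative_X_pow]
  have n1 : ‖F.aeval a‖ < 1 := by
    rw [e1, ← toZMod_eq_zero_iff, map_sub, map_pow, haz, hz, map_one, sub_self]
  have n2 : ‖F.derivative.aeval a‖ = 1 := by
    rw [e2]
    have h1 : ¬ ‖(N : ℤ_[c]) * a ^ (N - 1)‖ < 1 := by
      rw [← toZMod_eq_zero_iff, map_mul, map_pow, haz, map_natCast]
      refine mul_ne_zero ?_ (pow_ne_zero _ hz0)
      intro h0
      rw [ZMod.natCast_eq_zero_iff] at h0
      have h2 := Nat.le_of_dvd hN0 h0
      have h3 := Nat.le_of_dvd (by omega) hN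
      omega
    exact le_antisymm (PadicInt.norm_le_one _) (not_lt.1 h1)
  obtain ⟨w, hw1, hw2, -⟩ := hensels_lemma (F := F) (a := a) (by rw [n2]; simpa using n1)
  refine ⟨w, ?_, ?_⟩
  · have : F.aeval w = w ^ N - 1 := by simp [hF]
    rw [this] at hw1
    exact sub_eq_zero.1 hw1
  · rw [n2, ← toZMod_eq_zero_iff, map_sub, haz] at hw2
    exact sub_eq_zero.1 hw2

theorem main : TX := by
  classical
  intro c N _ L _ _ _ hN hN2 z hz
  have hc := (Fact.out : c.Prime).two_le
  have hN0 : 0 < N := by omega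
  have : NeZero N := ⟨hN0.ne'⟩
  set f : ZMod c →+* L := ZMod.castHom (dvd_refl c) L with hf
  have hfi : Function.Injective f := f.injective
  -- the root in the prime field
  obtain ⟨z0, hz0⟩ := exists_prim c N hN
  have hfz0 : IsPrimitiveRoot (f z0) N := hz0.map_of_injective hfi
  obtain ⟨i, -, hi⟩ := hfz0.eq_pow_of_pow_eq_one hz.pow_eq_one
  have hfz1 : f (z0 ^ i) = z := by rw [map_pow]; exact hi
  set z1 := z0 ^ i with hz1
  have hz1p : IsPrimitiveRoot z1 N := by
    refine IsPrimitiveRoot.of_map_of_injective (f := f) ?_ hfi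
    rw [hfz1]; exact hz
  obtain ⟨w0, hw0, hw0z⟩ := hensel_root c N hN hN0 z1 hz1p.pow_eq_one
  -- the embedding
  set φ : ℤ_[c] →+* PadicAlgCl c := (algebraMap ℚ_[c] (PadicAlgCl c)).comp PadicInt.Coe.ringHom with hφ
  have hφi : Function.Injective φ := by
    refine (algebraMap ℚ_[c] (PadicAlgCl c)).injective.comp ?_
    intro x y h
    exact Subtype.ext h
  have hφa : ∀ w : ℤ_[c], algebraMap ℚ_[c] (PadicAlgCl c) (w : ℚ_[c]) = φ w := fun w => rfl
  have hw0p : IsPrimitiveRoot w0 N := by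
    refine ⟨hw0, fun l hl => ?_⟩
    refine hz1p.dvd_of_pow_eq_one l ?_
    rw [← hw0z, ← map_pow, hl, map_one]
  set ω := φ w0 with hω
  have hωp : IsPrimitiveRoot ω N := hw0p.map_of_injective hφi
  -- the exponent
  set Q := Fintype.card L with hQ
  have hNQ : N ∣ Q - 1 := by
    obtain ⟨n, -, hn⟩ := FiniteField.card L c
    refine hN.trans ?_
    rw [hQ, hn]
    have := Nat.sub_dvd_pow_sub_pow c 1 (n : ℕ)
    rwa [one_pow] at this
  have hQ1 : 1 < Q := Fintype.one_lt_card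
  set u := (Q - 1) / N with hu
  have huN : u * N = Q - 1 := Nat.div_mul_cancel hNQ
  have hu0 : 0 < u := by
    rcases Nat.eq_zero_or_pos u with h | h
    · rw [h, zero_mul] at huN; omega
    · exact h
  have hpow : ∀ y : L, y ≠ 0 → ∃ k : ℕ, y ^ u = z ^ k := by
    intro y hy
    have h1 : (y ^ u) ^ N = 1 := by
      rw [← pow_mul, huN]
      exact FiniteField.pow_card_sub_one_eq_one y hy
    obtain ⟨k, -, hk⟩ := hz.eq_pow_of_pow_eq_one h1
    exact ⟨k, hk.symm⟩
  have hωN := hωp.pow_eq_one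
  let T : MulChar L (PadicAlgCl c) :=
    { toFun := fun y => kv N z ω (y ^ u)
      map_one' := by
        have := kv_pow hz hN0 hωN 0
        rw [pow_zero, pow_zero] at this
        rw [one_pow]; exact this
      map_mul' := by
        intro x y
        by_cases hx : x = 0
        · subst hx
          rw [zero_mul, zero_pow hu0.ne', kv_zero hz hN0, zero_mul]
        by_cases hy : y = 0
        · subst hy
          rw [mul_zero, zero_pow hu0.ne', kv_zero hz hN0, mul_zero]
        obtain ⟨k, hk⟩ := hpow x hx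
        obtain ⟨l, hl⟩ := hpow y hy
        rw [mul_pow, hk, hl, ← pow_add, kv_pow hz hN0 hωN, kv_pow hz hN0 hωN, kv_pow hz hN0 hωN, pow_add]
      map_nonunit' := by
        intro a ha
        have : a = 0 := by
          by_contra h
          exact ha (isUnit_iff_ne_zero.2 h)
        subst this
        show kv N z ω (0 ^ u) = 0
        rw [zero_pow hu0.ne', kv_zero hz hN0] }
  have hT : ∀ y, T y = kv N z ω (y ^ u) := fun y => rfl
  refine ⟨ω, T, hωp, ⟨?_, ?_⟩, ?_⟩
  · ext a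
    rw [MulChar.pow_apply_coe, MulChar.one_apply_coe, hT]
    obtain ⟨k, hk⟩ := hpow (a : L) a.ne_zero
    rw [hk, kv_pow hz hN0 hωN, ← pow_mul, mul_comm, pow_mul, hωN, one_pow]
  · intro y hy
    obtain ⟨k, hk⟩ := hpow y hy
    refine ⟨w0 ^ k, ?_, ?_⟩
    · rw [hφa, map_pow, hT, hk, kv_pow hz hN0 hωN]
    · rw [map_pow, map_pow, hw0z]
      show f z1 ^ k = y ^ u
      rw [hfz1, hk]
  · intro b y hb
    show T y ^ b = kv N z (ω ^ b) (y ^ u)
    rw [hT]
    by_cases hy : y = 0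
    · subst hy
      rw [zero_pow hu0.ne', kv_zero hz hN0, kv_zero hz hN0, zero_pow (by omega)]
    · obtain ⟨k, hk⟩ := hpow y hy
      have hωb : (ω ^ b) ^ N = 1 := by rw [← pow_mul, mul_comm, pow_mul, hωN, one_pow]
      rw [hk, kv_pow hz hN0 hωN, kv_pow hz hN0 hωb, ← pow_mul, ← pow_mul, mul_comm]

end Pool.Agent.W991.HA.TX
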